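import Pool.Agent.GT.StmtsA

/-!
Row A_GRB of the table `gt`: the second part of the proof of the theorem of Graham and Rothschild.
-/

namespace Pool.Agent.GT.H62

open Pool.Agent.GT

/-- the subspace `g` of the induction step -/
def gsub {k m B N' : ℕ} (w : Fin B → Fin k ⊕ Fin 1) (g' : Fin N' → Fin k ⊕ Fin m) :
    Fin (B + N') → Fin k ⊕ Fin (m + 1) :=
  Fin.append (fun i => Sum.map id (fun _ => 0) (w i)) (fun i => Sum.map id Fin.succ (g' i))

theorem isSub_gsub {k m B N' : ℕ} {w : Fin B → Fin k ⊕ Fin 1} {g' : Fin N' → Fin k ⊕ Fin m}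
    (hw : ∃ i, w i = Sum.inr 0) (hg : IsSub g') : IsSub (gsub w g') := by
  intro e
  refine Fin.cases ?_ (fun e' => ?_) e
  · obtain ⟨i, hi⟩ := hw
    refine ⟨Fin.castAdd N' i, ?_⟩
    unfold gsub
    rw [Fin.append_left, hi]
    rfl
  · obtain ⟨i, hi⟩ := hg e'
    refine ⟨Fin.natAdd B i, ?_⟩
    unfold gsub
    rw [Fin.append_right, hi]
    rfl

theorem sp_left {k m B N' : ℕ} (w : Fin B → Fin k ⊕ Fin 1) (g' : Fin N' → Fin k ⊕ Fin m)
    (x : Fin (m + 1) → Fin (k + 1)) (i : Fin B) :
    sp (up (gsub w g')) x (Fin.castAdd N' i)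
      = Sum.elim (fun a => a.castSucc) (fun _ => x 0) (w i) := by
  unfold sp up gsub
  rw [Fin.append_left]
  rcases w i with a | b <;> rfl

theorem sp_right {k m B N' : ℕ} (w : Fin B → Fin k ⊕ Fin 1) (g' : Fin N' → Fin k ⊕ Fin m)
    (x : Fin (m + 1) → Fin (k + 1)) (i : Fin N') :
    sp (up (gsub w g')) x (Fin.natAdd B i) = sp (up g') (fun e => x e.succ) i := by
  unfold sp up gsub
  rw [Fin.append_right]
  rcases g' i with a | b <;> rfl

theorem a_grb : GrbStmt := by
  classical
  intro k m C _ hk
  induction m with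
  | zero =>
    refine ⟨0, fun c _ => ⟨fun i => i.elim0, fun e => e.elim0, fun x x' e => e.elim0⟩⟩
  | succ m ih =>
    obtain ⟨N', hN'⟩ := ih
    obtain ⟨B, hB⟩ := Combinatorics.Subspace.exists_mono_in_high_dimension_fin (Fin k)
      ((Fin N' → Fin (k + 1)) → C) (Fin 1)
    refine ⟨B + N', fun c hc => ?_⟩
    obtain ⟨l, c', hc'⟩ := hB fun u v => c (Fin.append (cs u) v)
    set w : Fin B → Fin k ⊕ Fin 1 := l.idxFun with hw
    have hlx : ∀ (x : Fin 1 → Fin k) (i : Fin B), l x i = Sum.elim id x (w i) := fun x i => rfl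
    let a₀ : Fin k := ⟨0, hk⟩
    -- the colouring `c'` has the property of the hypothesis
    have hprop : ∀ (x x' : Fin N' → Fin (k + 1)) (e : Fin N'), MinAt x e → MinAt x' e →
        (∀ e' < e, x e' = x' e') → c' x = c' x' := by
      intro x x' e hx hx' hxx
      rw [← hc' fun _ => a₀]
      have hmin : ∀ y : Fin N' → Fin (k + 1), MinAt y e →
          MinAt (Fin.append (cs (l fun _ => a₀)) y) (Fin.natAdd B e) := by
        intro y hy
        refine ⟨by rw [Fin.append_right]; exact hy.1, fun j => ?_⟩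
        refine Fin.addCases (fun i => ?_) (fun i => ?_) j
        · intro _
          rw [Fin.append_left]
          exact (Fin.castSucc_lt_last _).ne
        · intro hi
          rw [Fin.append_right]
          exact hy.2 i ((Fin.natAdd_lt_natAdd_iff _).1 hi)
      refine hc _ _ (Fin.natAdd B e) (hmin x hx) (hmin x' hx') fun j => ?_
      refine Fin.addCases (fun i => ?_) (fun i => ?_) j
      · intro _
        rw [Fin.append_left, Fin.append_left]
      · intro hi
        rw [Fin.append_right, Fin.append_right]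
        exact hxx i ((Fin.natAdd_lt_natAdd_iff _).1 hi)
    obtain ⟨g', hg', hcol⟩ := hN' c' hprop
    obtain ⟨i₁, hi₁⟩ := l.proper 0
    refine ⟨gsub w g', isSub_gsub ⟨i₁, hi₁⟩ hg', fun x x' e => ?_⟩
    -- the words
    have hword : ∀ (y : Fin (m + 1) → Fin (k + 1)) (a : Fin k), y 0 = a.castSucc →
        c (sp (up (gsub w g')) y) = c' (sp (up g') fun e => y e.succ) := by
      intro y a hy
      rw [← hc' fun _ => a]
      congr 1
      funext j
      refine Fin.addCases (fun i => ?_) (fun i => ?_) j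
      · rw [sp_left, Fin.append_left]
        unfold cs
        rw [hlx]
        rcases w i with b | b
        · rfl
        · exact hy
      · rw [sp_right, Fin.append_right]
    refine Fin.cases ?_ (fun e' => ?_) e
    · -- the first `∗` is at `0`
      intro hx hx'
      have hex : ∃ i, w i = Sum.inr 0 := ⟨i₁, hi₁⟩
      obtain ⟨i₀, hi₀, hmin₀⟩ : ∃ i₀, w i₀ = Sum.inr 0 ∧ ∀ i < i₀, w i ≠ Sum.inr 0 := by
        obtain ⟨i₀, h1, h2⟩ := Finset.exists_min_image
          (Finset.univ.filter fun i => w i = Sum.inr 0) id ⟨i₁, by simpa using hi₁⟩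
        refine ⟨i₀, by simpa using h1, fun i hi hwi => ?_⟩
        have := h2 i (by simpa using hwi)
        exact absurd hi (not_lt.2 this)
      have hlet : ∀ i < i₀, ∃ a, w i = Sum.inl a := by
        intro i hi
        rcases hwi : w i with a | b
        · exact ⟨a, rfl⟩
        · exfalso
          refine hmin₀ i hi ?_
          rw [hwi]
          congr 1
          exact Subsingleton.elim _ _
      have hmin : ∀ y : Fin (m + 1) → Fin (k + 1), MinAt y 0 →
          MinAt (sp (up (gsub w g')) y) (Fin.castAdd N' i₀) := by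
        intro y hy
        refine ⟨by rw [sp_left, hi₀]; exact hy.1, fun j => ?_⟩
        refine Fin.addCases (fun i => ?_) (fun i => ?_) j
        · intro hi
          obtain ⟨a, ha⟩ := hlet i (Fin.lt_def.2 (Fin.lt_def.1 hi))
          rw [sp_left, ha]
          exact (Fin.castSucc_lt_last _).ne
        · intro hi
          exfalso
          rw [Fin.lt_def, Fin.val_natAdd, Fin.val_castAdd] at hi
          have := i₀.isLt
          omega
      refine hc _ _ (Fin.castAdd N' i₀) (hmin x hx) (hmin x' hx') fun j => ?_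
      refine Fin.addCases (fun i => ?_) (fun i => ?_) j
      · intro hi
        obtain ⟨a, ha⟩ := hlet i (Fin.lt_def.2 (Fin.lt_def.1 hi))
        rw [sp_left, sp_left, ha]
        rfl
      · intro hi
        exfalso
        rw [Fin.lt_def, Fin.val_natAdd, Fin.val_castAdd] at hi
        have := i₀.isLt
        omega
    · intro hx hx'
      have hlast : ∀ y : Fin (m + 1) → Fin (k + 1), MinAt y e'.succ →
          (∃ a : Fin k, y 0 = a.castSucc) ∧ MinAt (fun e => y e.succ) e' := by
        intro y hy
        refine ⟨⟨(y 0).castPred (hy.2 0 (Fin.succ_pos _)), (Fin.castSucc_castPred _ _).symm⟩,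
          hy.1, fun e'' he'' => hy.2 _ (Fin.succ_lt_succ_iff.2 he'')⟩
      obtain ⟨⟨a, ha⟩, hm⟩ := hlast x hx
      obtain ⟨⟨a', ha'⟩, hm'⟩ := hlast x' hx'
      rw [hword x a ha, hword x' a' ha']
      exact hcol _ _ e' hm hm'

end Pool.Agent.GT.H62
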