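import Pool.Agent.GT.StmtsB

/-!
Row B_GNB of the table `gt`: the product of two generators is an average of generators.
-/

namespace Pool.Agent.GT.H62

open Pool.Agent.GT Finset

variable {N K : ℕ} [NeZero N]

/-- the number of the points with sum `0` -/
theorem gnb_count (hK : 1 ≤ K) :
    (N : ℝ) * ∑ z : Fin K → ZMod N, (if ∑ i, z i = 0 then (1 : ℝ) else 0)
      = Fintype.card (Fin K → ZMod N) := by
  classical
  let i₀ : Fin K := ⟨0, hK⟩
  have h1 : ∀ s : ZMod N, ∑ z : Fin K → ZMod N, (if ∑ i, z i = s then (1 : ℝ) else 0)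
      = ∑ z : Fin K → ZMod N, (if ∑ i, z i = 0 then (1 : ℝ) else 0) := by
    intro s
    rw [← Equiv.sum_comp (Equiv.addRight (Pi.single i₀ s : Fin K → ZMod N))
      (fun z : Fin K → ZMod N => if ∑ i, z i = s then (1 : ℝ) else 0)]
    refine Finset.sum_congr rfl fun z _ => ?_
    have h2 : ∑ i, (Equiv.addRight (Pi.single i₀ s : Fin K → ZMod N)) z i = (∑ i, z i) + s := by
      simp only [Equiv.coe_addRight, Pi.add_apply]
      rw [Finset.sum_add_distrib]
      congr 1
      rw [Finset.sum_pi_single' i₀ s univ, if_pos (mem_univ _)]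
    rw [h2]
    simp only [add_eq_right]
  have h3 : ∑ s : ZMod N, ∑ z : Fin K → ZMod N, (if ∑ i, z i = s then (1 : ℝ) else 0)
      = Fintype.card (Fin K → ZMod N) := by
    rw [Finset.sum_comm]
    simp
  rw [← h3, Finset.sum_congr rfl fun s _ => h1 s, Finset.sum_const, Finset.card_univ, ZMod.card,
    nsmul_eq_mul]

theorem b_gnb : GnbStmt := by
  classical
  intro N K _ hK φ hφ ψ hψ
  obtain ⟨u, hu1, hu2, rfl⟩ := hφ
  obtain ⟨u', hu1', hu2', rfl⟩ := hψ
  set n : ℝ := (Fintype.card (Fin K → ZMod N) : ℝ) with hn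
  have hn0 : n ≠ 0 := by
    rw [hn]
    exact_mod_cast Fintype.card_ne_zero
  have hn1 : 0 < n := lt_of_le_of_ne (by rw [hn]; positivity) hn0.symm
  set w : (Fin K → ZMod N) → ℝ := fun z => N * (if ∑ i, z i = 0 then (1 : ℝ) else 0) / n with hw
  set v : (Fin K → ZMod N) → Fin K → (Fin K → ZMod N) → ℝ :=
    fun z i y => u i y * u' i (y + z) with hv
  have hmem : ∀ z, gen N K (v z) ∈ GenSet N K := by
    intro z
    refine ⟨v z, fun i y s => ?_, fun i y => ?_, rfl⟩
    · simp only [hv]
      rw [hu1 i y s]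
      have h1 : Function.update y i s + z = Function.update (y + z) i (s + z i) := by
        funext j
        by_cases hj : j = i
        · subst hj
          simp
        · simp [Function.update_of_ne hj]
      rw [h1, hu1' i (y + z) (s + z i)]
    · simp only [hv]
      rw [abs_mul]
      exact mul_le_one₀ (hu2 i y) (abs_nonneg _) (hu2' i _)
  have hsum : ∑ z, w z = 1 := by
    simp only [hw]
    rw [← Finset.sum_div, ← Finset.mul_sum, gnb_count hK, div_self hn0]
  have hw0 : ∀ z, 0 ≤ w z := by
    intro z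
    simp only [hw]
    refine div_nonneg (mul_nonneg (Nat.cast_nonneg _) ?_) hn1.le
    split_ifs <;> norm_num
  have hkey : (fun s => gen N K u s * gen N K u' s) = ∑ z, w z • gen N K (v z) := by
    funext s
    rw [Finset.sum_apply]
    simp only [Pi.smul_apply, smul_eq_mul]
    unfold gen av
    rw [← hn]
    have h1 : (∑ y : Fin K → ZMod N, (if ∑ i, y i = s then (1 : ℝ) else 0) * ∏ i, u i y) *
        (∑ y : Fin K → ZMod N, (if ∑ i, y i = s then (1 : ℝ) else 0) * ∏ i, u' i y)
        = ∑ z : Fin K → ZMod N, (if ∑ i, z i = 0 then (1 : ℝ) else 0) *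
          ∑ y : Fin K → ZMod N, (if ∑ i, y i = s then (1 : ℝ) else 0) * ∏ i, v z i y := by
      rw [Finset.sum_mul]
      have h2 : ∀ y : Fin K → ZMod N,
          ((if ∑ i, y i = s then (1 : ℝ) else 0) * ∏ i, u i y) *
          (∑ y' : Fin K → ZMod N, (if ∑ i, y' i = s then (1 : ℝ) else 0) * ∏ i, u' i y')
          = ∑ z : Fin K → ZMod N, (if ∑ i, z i = 0 then (1 : ℝ) else 0) *
            ((if ∑ i, y i = s then (1 : ℝ) else 0) * ∏ i, v z i y) := by
        intro y
        rw [← Equiv.sum_comp (Equiv.addLeft y) (fun y' : Fin K → ZMod N =>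
          (if ∑ i, y' i = s then (1 : ℝ) else 0) * ∏ i, u' i y'), Finset.mul_sum]
        refine Finset.sum_congr rfl fun z _ => ?_
        rw [Equiv.coe_addLeft]
        simp only [hv]
        rw [Finset.prod_mul_distrib]
        by_cases hy : ∑ i, y i = s
        · have h3 : (∑ i, (y + z) i = s) ↔ ∑ i, z i = 0 := by
            simp only [Pi.add_apply]
            rw [Finset.sum_add_distrib, hy]
            exact add_eq_left
          rw [if_pos hy]
          by_cases hz : ∑ i, z i = 0
          · rw [if_pos hz, if_pos (h3.2 hz)]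
            ring
          · rw [if_neg hz, if_neg (fun h => hz (h3.1 h))]
            ring
        · rw [if_neg hy]
          ring
      rw [Finset.sum_congr rfl fun y _ => h2 y, Finset.sum_comm]
      exact Finset.sum_congr rfl fun z _ => (Finset.mul_sum _ _ _).symm
    have h4 : ∀ z : Fin K → ZMod N, w z * ((N : ℝ) *
        ((∑ y : Fin K → ZMod N, (if ∑ i, y i = s then (1 : ℝ) else 0) * ∏ i, v z i y) / n))
        = ((N : ℝ) / n) ^ 2 * ((if ∑ i, z i = 0 then (1 : ℝ) else 0) *
          ∑ y : Fin K → ZMod N, (if ∑ i, y i = s then (1 : ℝ) else 0) * ∏ i, v z i y) := by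
      intro z
      simp only [hw]
      ring
    rw [Finset.sum_congr rfl fun z _ => h4 z, ← Finset.mul_sum, ← h1]
    ring
  rw [hkey]
  exact (convex_convexHull ℝ (GenSet N K)).sum_mem (fun z _ => hw0 z) hsum
    fun z _ => subset_convexHull ℝ _ (hmem z)

end Pool.Agent.GT.H62
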