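import Pool.Agent.GT.StmtsE
import Pool.Agent.GT.StmtsD

/-!
# Squad GT, row E_LDE: products of linear forms
-/

set_option autoImplicit false

namespace Pool.Agent.GT.OF.H62

open Polynomial Pool.Agent.NJ Pool.Agent.GT.D

section
variable {ι : Type} [Fintype ι] [DecidableEq ι] (D : LD ι)

theorem sum_A (u v : ℤ) : D.A 0 u v + D.A 1 u v + D.A 2 u v = 0 := by
  have h := D.sum u v
  rw [Fin.sum_univ_three] at h
  exact h

theorem A_mul {u₀ v₀ u v : ℤ} {p : ι → ℕ} (hL : ∀ l, D.L l u v = D.L l u₀ v₀ * (p l : ℤ))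
    (i : Fin 3) : D.A i u v = D.A i u₀ v₀ * ∏ l, (if D.bl l = i then (p l : ℤ) ^ D.m l else 1) := by
  unfold LD.A
  rw [mul_assoc, ← Finset.prod_mul_distrib]
  congr 1
  refine Finset.prod_congr rfl fun l _ => ?_
  by_cases h : D.bl l = i
  · rw [if_pos h, if_pos h, if_pos h, hL l, mul_pow]
  · rw [if_neg h, if_neg h, if_neg h, mul_one]

theorem F_mul {u₀ v₀ u v : ℤ} {p : ι → ℕ} (hL : ∀ l, D.L l u v = D.L l u₀ v₀ * (p l : ℤ)) :
    D.F u v = D.F u₀ v₀ * ∏ l, (p l : ℤ) ^ D.st l := by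
  unfold LD.F
  rw [mul_assoc, ← Finset.prod_mul_distrib]
  congr 1
  refine Finset.prod_congr rfl fun l _ => ?_
  rw [hL l, mul_pow]

theorem F_ne {u v : ℤ} (hL : ∀ l, D.L l u v ≠ 0) : D.F u v ≠ 0 := by
  unfold LD.F
  exact mul_ne_zero D.g0 (Finset.prod_ne_zero_iff.2 fun l _ => pow_ne_zero _ (hL l))

theorem A_ne {u v : ℤ} (hL : ∀ l, D.L l u v ≠ 0) (i : Fin 3) : D.A i u v ≠ 0 := by
  unfold LD.A
  refine mul_ne_zero (D.k0 i) (Finset.prod_ne_zero_iff.2 fun l _ => ?_)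
  by_cases h : D.bl l = i
  · rw [if_pos h]
    exact pow_ne_zero _ (hL l)
  · rw [if_neg h]
    exact one_ne_zero

theorem Dn_eq {u₀ v₀ u v k : ℤ} {p : ι → ℕ} (hL : ∀ l, D.L l u v = D.L l u₀ v₀ * (p l : ℤ))
    (i : Fin 3) : k * D.F u v * D.A i u v =
      Dn (fun i => k * D.F u₀ v₀ * D.A i u₀ v₀) D.bl D.m D.st p i := by
  have h1 : ∏ l, (p l : ℤ) ^ (D.st l + if D.bl l = i then D.m l else 0) =
      (∏ l, (p l : ℤ) ^ D.st l) * ∏ l, (if D.bl l = i then (p l : ℤ) ^ D.m l else 1) := by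
    rw [← Finset.prod_mul_distrib]
    refine Finset.prod_congr rfl fun l _ => ?_
    rw [pow_add]
    congr 1
    by_cases h : D.bl l = i
    · rw [if_pos h, if_pos h]
    · rw [if_neg h, if_neg h, pow_zero]
  unfold Dn
  rw [h1, A_mul D hL i, F_mul D hL]
  ring

end

/-- a prime which does not divide `n` -/
theorem big {n : ℤ} (hn : n ≠ 0) {q : ℕ} (hq : n.natAbs < q) : ¬ (q : ℤ) ∣ n := by
  intro h
  have h1 : q ∣ n.natAbs := Int.natCast_dvd.1 h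
  have h2 := Nat.le_of_dvd (Int.natAbs_pos.2 hn) h1
  omega

theorem e_lde (hInj : InjStmt) (hPre : PreStmt) (hDvl : DvlStmt) (hApp : AppStmt)
    (hInf : InfStmt) : LdeStmt := by
  intro hGt ι _ _ D u₀ v₀ hL0
  obtain ⟨u₁, v₁, n, hdet, hninj, hlin⟩ := hApp ι D u₀ v₀ hL0
  have hF0 : D.F u₀ v₀ ≠ 0 := F_ne D hL0
  have hA0 : ∀ i, D.A i u₀ v₀ ≠ 0 := A_ne D hL0
  refine ⟨(D.F u₀ v₀ * ∏ i, D.A i u₀ v₀).natAbs.primeFactors ∪ Finset.range (3 + ∑ l, n l), ?_⟩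
  intro k hk hr hsel
  obtain ⟨r, hrp, hrk, hrS⟩ := hr
  rw [Finset.mem_union, not_or, Finset.mem_range, not_lt] at hrS
  obtain ⟨hrS1, hrS2⟩ := hrS
  have hr2 : r ≠ 2 := by omega
  have hnr : ∀ l, n l < r := by
    intro l
    have h1 : n l ≤ ∑ l, n l :=
      Finset.single_le_sum (f := fun l => n l) (fun _ _ => Nat.zero_le _) (Finset.mem_univ l)
    omega
  have hprod0 : D.F u₀ v₀ * ∏ i, D.A i u₀ v₀ ≠ 0 :=
    mul_ne_zero hF0 (Finset.prod_ne_zero_iff.2 fun i _ => hA0 i)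
  have hrFA : ¬ (r : ℤ) ∣ D.F u₀ v₀ * ∏ i, D.A i u₀ v₀ := by
    intro h
    apply hrS1
    rw [Nat.mem_primeFactors]
    exact ⟨hrp, Int.natCast_dvd.1 h, Int.natAbs_ne_zero.2 hprod0⟩
  have hrF : ¬ (r : ℤ) ∣ D.F u₀ v₀ := fun h => hrFA (h.mul_right _)
  have hrA : ∀ i, ¬ (r : ℤ) ∣ D.A i u₀ v₀ := fun i h =>
    hrFA ((h.trans (Finset.dvd_prod_of_mem (fun i => D.A i u₀ v₀) (Finset.mem_univ i))).mul_left _)
  have hrZ : Prime (r : ℤ) := Nat.prime_iff_prime_int.1 hrp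
  have hk0 : k ≠ 0 := hk.ne_zero
  obtain ⟨P, hP⟩ : ∃ P : Fin 3 → ℤ, P = fun i => k * D.F u₀ v₀ * D.A i u₀ v₀ := ⟨_, rfl⟩
  have hPi : ∀ i, P i = k * D.F u₀ v₀ * D.A i u₀ v₀ := fun i => by rw [hP]
  have hP0 : ∀ i, P i ≠ 0 := fun i => by
    rw [hPi]
    exact mul_ne_zero (mul_ne_zero hk0 hF0) (hA0 i)
  have hPs : P 0 + P 1 + P 2 = 0 := by
    rw [hPi, hPi, hPi]
    linear_combination (k * D.F u₀ v₀) * sum_A D u₀ v₀
  have hrd : ∀ i, (r : ℤ) ∣ P i ∧ ¬ (r : ℤ) ^ 2 ∣ P i := by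
    intro i
    rw [hPi]
    refine ⟨(hrk.mul_right _).mul_right _, ?_⟩
    intro h
    obtain ⟨k', hk'⟩ := hrk
    have h1 : ¬ (r : ℤ) ∣ k' := by
      rintro ⟨k'', hk''⟩
      have h2 := hk (r : ℤ) ⟨k'', by rw [hk', hk'']; ring⟩
      exact hrZ.not_unit h2
    have h2 : (r : ℤ) * (r : ℤ) ∣ (r : ℤ) * (k' * D.F u₀ v₀ * D.A i u₀ v₀) := by
      have h3 : (r : ℤ) * (k' * D.F u₀ v₀ * D.A i u₀ v₀) = k * D.F u₀ v₀ * D.A i u₀ v₀ := by
        rw [hk']; ring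
      rw [h3, ← sq]
      exact h
    have h3 := Int.dvd_of_mul_dvd_mul_left hrZ.ne_zero h2
    rcases hrZ.dvd_or_dvd h3 with h4 | h4
    · rcases hrZ.dvd_or_dvd h4 with h5 | h5
      · exact h1 h5
      · exact hrF h5
    · exact hrA i h4
  rw [← hP] at hsel
  obtain ⟨N, hN1, hN⟩ := hInj P hP0 hPs hsel
  -- the auxiliary primes
  have hB0 : 2 * P 0 * P 1 * P 2 ≠ 0 :=
    mul_ne_zero (mul_ne_zero (mul_ne_zero two_ne_zero (hP0 0)) (hP0 1)) (hP0 2)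
  obtain ⟨q₁, hq₁, hq₁p⟩ := Nat.exists_infinite_primes (3 + (2 * P 0 * P 1 * P 2).natAbs)
  obtain ⟨q₂, hq₂, hq₂p⟩ := Nat.exists_infinite_primes (q₁ + 1)
  have hq₁n : ¬ (q₁ : ℤ) ∣ 2 * P 0 * P 1 * P 2 := big hB0 (by omega)
  have hq₂n : ¬ (q₂ : ℤ) ∣ 2 * P 0 * P 1 * P 2 := big hB0 (by omega)
  refine ⟨q₁, q₂, hq₁p, hq₂p, by omega, by omega, by omega, ?_⟩
  -- the forms on the line
  have hLl : ∀ (a' d : ℕ) (l : ι), D.L l (u₀ * a' + u₁ * d) (v₀ * a' + v₁ * d) =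
      D.L l u₀ v₀ * ((a' + n l * d : ℕ) : ℤ) := by
    intro a' d l
    rw [hlin]
    push_cast
    ring
  have hDn : ∀ (a' d : ℕ) (i : Fin 3), k * D.F (u₀ * a' + u₁ * d) (v₀ * a' + v₁ * d) *
      D.A i (u₀ * a' + u₁ * d) (v₀ * a' + v₁ * d) =
        Dn P D.bl D.m D.st (fun l => a' + n l * d) i := by
    intro a' d i
    rw [hP]
    exact Dn_eq D (p := fun l => a' + n l * d) (hLl a' d) i
  have hsum : ∀ a' d : ℕ, Dn P D.bl D.m D.st (fun l => a' + n l * d) 0 +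
      Dn P D.bl D.m D.st (fun l => a' + n l * d) 1 +
      Dn P D.bl D.m D.st (fun l => a' + n l * d) 2 = 0 := by
    intro a' d
    rw [← hDn, ← hDn, ← hDn]
    linear_combination (k * D.F (u₀ * a' + u₁ * d) (v₀ * a' + v₁ * d)) *
      sum_A D (u₀ * a' + u₁ * d) (v₀ * a' + v₁ * d)
  have hpre := hPre hGt ι P r D.bl D.m D.st n hP0 hPs hrp hr2 hrd hninj hnr D.st1
    ⟨D.N, D.deg, D.par⟩ hsum N
  have hinf := hInf u₀ v₀ u₁ v₁
    (fun a' d => q₂ < a' ∧ ∃ h : ZMod 2, Nwe P r D.bl D.m D.st (fun l => a' + n l * d) h N) hdet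
    (fun n₀ => by
      obtain ⟨a', d, h1, h2, h3, h4, h5⟩ := hpre (n₀ + q₂ + 1)
      exact ⟨a', d, by omega, h2, h3, h4, by omega, h5⟩)
  refine hinf.mono ?_
  rintro t ⟨a', d, ha', hd, ⟨hqa, h, hnew⟩, hv, rfl⟩
  have hfun : (fun i => k * D.F (u₀ * a' + u₁ * d) (v₀ * a' + v₁ * d) *
      D.A i (u₀ * a' + u₁ * d) (v₀ * a' + v₁ * d)) =
        Dn P D.bl D.m D.st (fun l => a' + n l * d) := funext fun i => hDn a' d i
  refine ⟨u₀ * a' + u₁ * d, v₀ * a' + v₁ * d, hv, rfl, ?_, ?_, ?_⟩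
  · intro l
    rw [hLl]
    refine mul_ne_zero (hL0 l) ?_
    exact_mod_cast (hnew.pr l).ne_zero
  · intro i
    obtain ⟨-, -, -, hd4⟩ := hDvl ι P r D.bl D.m D.st (fun l => a' + n l * d) h N hN1 hnew
    have hne : ∀ q : ℕ, q ≤ q₂ → ∀ l, q ≠ (fun l => a' + n l * d) l := by
      intro q hq l
      have h1 : a' ≤ a' + n l * d := Nat.le_add_right _ _
      change q ≠ a' + n l * d
      omega
    rw [hDn]
    exact ⟨hd4 q₁ hq₁p hq₁n (hne q₁ (by omega)) i, hd4 q₂ hq₂p hq₂n (hne q₂ le_rfl) i⟩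
  · intro x w hT
    rw [hfun] at hT ⊢
    exact hN ι r D.bl D.m D.st (fun l => a' + n l * d) h hnew x w hT

end Pool.Agent.GT.OF.H62
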